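import Pool.Agent.H14R2.RD.Defs

namespace RC14
open scoped InnerProductSpace
open Finset

namespace TQB

variable {G : Type*} [Group G]
variable {V : Type*} [NormedAddCommGroup V] [InnerProductSpace ℂ V]

theorem inner_rho (ρ : G →* (V ≃ₗᵢ[ℂ] V)) (g : G) (v w : V) :
    ⟪ρ g v, w⟫_ℂ = ⟪v, ρ g⁻¹ w⟫_ℂ := by
  have h : ρ g (ρ g⁻¹ w) = w := by
    rw [map_inv]
    exact (ρ g).apply_symm_apply w
  conv_lhs => rw [← h]
  exact (ρ g).inner_map_map v (ρ g⁻¹ w)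

theorem inner_rho' (ρ : G →* (V ≃ₗᵢ[ℂ] V)) (g : G) (v w : V) :
    ⟪ρ g⁻¹ v, w⟫_ℂ = ⟪v, ρ g w⟫_ℂ := by
  rw [inner_rho, inv_inv]

theorem TQ_apply (ρ : G →* (V ≃ₗᵢ[ℂ] V)) {q : ℕ} (z : Fin q → G) (v : V) :
    TQ ρ z v = (1 / (2 * (q : ℂ))) • ∑ i, (ρ (z i) v + ρ (z i)⁻¹ v) := by
  unfold TQ
  simp [LinearMap.sum_apply, LinearMap.add_apply, LinearMap.smul_apply, op_apply]

theorem c_real (q : ℕ) : (1 / (2 * (q : ℂ))) = ((1 / (2 * (q : ℝ)) : ℝ) : ℂ) := by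
  push_cast
  ring

theorem conj_c (q : ℕ) : (starRingEnd ℂ) (1 / (2 * (q : ℂ))) = 1 / (2 * (q : ℂ)) := by
  rw [c_real, Complex.conj_ofReal]

end TQB

variable {G : Type*} [Group G]
variable {V : Type*} [NormedAddCommGroup V] [InnerProductSpace ℂ V] [FiniteDimensional ℂ V]

theorem TQ_symm (ρ : G →* (V ≃ₗᵢ[ℂ] V)) {q : ℕ} (z : Fin q → G) : (TQ ρ z).IsSymmetric := by
  intro x y
  rw [TQB.TQ_apply, TQB.TQ_apply, inner_smul_left, inner_smul_right, TQB.conj_c, sum_inner,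
    inner_sum]
  congr 1
  apply Finset.sum_congr rfl
  intro i _
  rw [inner_add_left, inner_add_right, TQB.inner_rho, TQB.inner_rho', add_comm]

theorem TQ_contr (ρ : G →* (V ≃ₗᵢ[ℂ] V)) {q : ℕ} (z : Fin q → G) (v : V) :
    ‖TQ ρ z v‖ ≤ ‖v‖ := by
  rw [TQB.TQ_apply, norm_smul]
  rcases Nat.eq_zero_or_pos q with h0 | hq
  · subst h0
    simp
  · have hq' : (0 : ℝ) < q := by exact_mod_cast hq
    have h1 : ‖∑ i, (ρ (z i) v + ρ (z i)⁻¹ v)‖ ≤ ∑ i : Fin q, 2 * ‖v‖ := by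
      apply norm_sum_le_of_le
      intro i _
      calc ‖ρ (z i) v + ρ (z i)⁻¹ v‖ ≤ ‖ρ (z i) v‖ + ‖ρ (z i)⁻¹ v‖ := norm_add_le _ _
        _ = 2 * ‖v‖ := by rw [LinearIsometryEquiv.norm_map, LinearIsometryEquiv.norm_map]; ring
    rw [Finset.sum_const, Finset.card_univ, Fintype.card_fin, nsmul_eq_mul] at h1
    have h2 : ‖(1 / (2 * (q : ℂ)))‖ = 1 / (2 * (q : ℝ)) := by
      rw [TQB.c_real, Complex.norm_real, Real.norm_of_nonneg (by positivity)]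
    rw [h2]
    calc 1 / (2 * (q : ℝ)) * ‖∑ i, (ρ (z i) v + ρ (z i)⁻¹ v)‖
        ≤ 1 / (2 * (q : ℝ)) * (q * (2 * ‖v‖)) := mul_le_mul_of_nonneg_left h1 (by positivity)
      _ = ‖v‖ := by field_simp

theorem TQ_energy (ρ : G →* (V ≃ₗᵢ[ℂ] V)) {q : ℕ} (hq : 1 ≤ q) (z : Fin q → G) (v : V) :
    ‖v‖ ^ 2 - (⟪TQ ρ z v, v⟫_ℂ).re = En ρ z v / (2 * q) := by
  have hq' : (0 : ℝ) < q := by exact_mod_cast hq
  have h1 : (⟪TQ ρ z v, v⟫_ℂ).re = 1 / (2 * (q : ℝ)) * ∑ i, 2 * (⟪ρ (z i) v, v⟫_ℂ).re := by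
    rw [TQB.TQ_apply, inner_smul_left, TQB.conj_c, TQB.c_real, Complex.re_ofReal_mul, sum_inner,
      Complex.re_sum]
    congr 1
    apply Finset.sum_congr rfl
    intro i _
    rw [inner_add_left, Complex.add_re, TQB.inner_rho' ρ (z i) v v]
    have : (⟪v, ρ (z i) v⟫_ℂ).re = (⟪ρ (z i) v, v⟫_ℂ).re := by
      rw [← inner_conj_symm, Complex.conj_re]
    rw [this]
    ring
  have h2 : En ρ z v = ∑ i, (2 * ‖v‖ ^ 2 - 2 * (⟪ρ (z i) v, v⟫_ℂ).re) := by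
    unfold En
    apply Finset.sum_congr rfl
    intro i _
    have h3 := @norm_sub_sq ℂ V _ _ _ (ρ (z i) v) v
    rw [LinearIsometryEquiv.norm_map] at h3
    have h4 : RCLike.re (⟪ρ (z i) v, v⟫_ℂ) = (⟪ρ (z i) v, v⟫_ℂ).re := rfl
    rw [h4] at h3
    linarith
  rw [h1, h2, Finset.sum_sub_distrib, Finset.sum_const, Finset.card_univ, Fintype.card_fin,
    nsmul_eq_mul]
  field_simp

theorem TQ2 (ρ : G →* (V ≃ₗᵢ[ℂ] V)) {q : ℕ} (hq : 1 ≤ q) (z : Fin q → G) :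
    (TQ ρ z * TQ ρ z).IsSymmetric ∧ (∀ v, 0 ≤ (⟪(TQ ρ z * TQ ρ z) v, v⟫_ℂ).re) ∧
      (∀ v, (⟪(TQ ρ z * TQ ρ z) v, v⟫_ℂ).re ≤ ‖v‖ ^ 2) ∧
      ∀ v, ‖v‖ ^ 2 - (⟪(TQ ρ z * TQ ρ z) v, v⟫_ℂ).re ≤ En ρ z v / q := by
  have hs := TQ_symm ρ z
  have hq' : (0 : ℝ) < q := by exact_mod_cast hq
  have key : ∀ v, (⟪(TQ ρ z * TQ ρ z) v, v⟫_ℂ).re = ‖TQ ρ z v‖ ^ 2 := by
    intro v
    rw [Module.End.mul_apply, hs (TQ ρ z v) v]
    have := @inner_self_eq_norm_sq ℂ V _ _ _ (TQ ρ z v)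
    exact this
  refine ⟨?_, ?_, ?_, ?_⟩
  · intro x y
    rw [Module.End.mul_apply, Module.End.mul_apply, hs (TQ ρ z x) y, hs x (TQ ρ z y)]
  · intro v
    rw [key]
    positivity
  · intro v
    rw [key]
    have := TQ_contr ρ z v
    gcongr
  · intro v
    rw [key]
    have h1 := TQ_energy ρ hq z v
    have h2 := @norm_sub_sq ℂ V _ _ _ (TQ ρ z v) v
    have h4 : RCLike.re (⟪TQ ρ z v, v⟫_ℂ) = (⟪TQ ρ z v, v⟫_ℂ).re := rfl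
    rw [h4] at h2
    have h3 : 0 ≤ ‖TQ ρ z v - v‖ ^ 2 := by positivity
    have h5 : En ρ z v / q = 2 * (En ρ z v / (2 * q)) := by field_simp
    rw [h5, ← h1]
    linarith

end RC14
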